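import Pool.Agent.W101.VC.CLS
import Pool.Agent.W349.VC.LAT
import Pool.Agent.W349.VC.SEP
import Pool.Agent.W177.VC.ROOT
import Pool.Agent.W505.VC.REV
import Pool.Agent.H510R2.Div
import Pool.Agent.Y675.TC.Stm

/-! Few almost prime values of the quartic form are not squarefree (for helper675's S_NSQ). -/

set_option autoImplicit false

namespace Pool.Agent.Y421.TC

open Finset Polynomial Pool.Agent.Y675.TC Pool.Agent.W4.VC Pool.Agent.W4.CF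

theorem hLAT : S_LAT :=
  Pool.Agent.W349.VC.t_LAT (Pool.Agent.W101.VC.t_CLS Pool.Agent.W177.VC.ROOT.t_ROOT
    Pool.Agent.W505.VC.t_REV) Pool.Agent.W349.VC.t_SEP

/-- the quartic polynomial -/
noncomputable def ff (B : ℕ) : ℤ[X] := X ^ 4 + C (6 * (B : ℤ)) * X ^ 2 + C ((B : ℤ) ^ 2)

theorem ff_deg (B : ℕ) : (ff B).natDegree = 4 := by
  unfold ff
  compute_degree!

theorem ff_sqf (B : ℕ) (hB : 1 ≤ B) : Sqf (ff B) 4 := by
  refine ⟨?_, by rw [ff_deg], by rw [ff_deg]; norm_num⟩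
  apply Separable.squarefree
  have hb : (B : ℚ) ≠ 0 := by
    have : B ≠ 0 := by omega
    exact_mod_cast this
  have h1 : (ff B).map (Int.castRingHom ℚ) =
      X ^ 4 + C (6 * (B : ℚ)) * X ^ 2 + C ((B : ℚ) ^ 2) := by
    unfold ff
    rw [Polynomial.map_add, Polynomial.map_add, Polynomial.map_mul, Polynomial.map_pow,
      Polynomial.map_pow, map_X, map_C, map_C, eq_intCast, eq_intCast]
    push_cast
    rfl
  rw [h1, separable_def']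
  refine ⟨C (1 / (B : ℚ) ^ 2) + C (3 / (8 * (B : ℚ) ^ 3)) * X ^ 2,
    -(C (17 / (32 * (B : ℚ) ^ 2)) * X + C (3 / (32 * (B : ℚ) ^ 3)) * X ^ 3), ?_⟩
  apply Polynomial.funext
  intro x
  simp only [derivative_add, derivative_mul, derivative_X_pow, derivative_C, eval_add, eval_mul,
    eval_C, eval_pow, eval_X, eval_neg, eval_one, zero_mul, zero_add, add_zero]
  push_cast
  field_simp
  ring

theorem hom_gen (u v a b : ℤ) : hom (X ^ 4 + C u * X ^ 2 + C v) 4 a b =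
    a ^ 4 + u * a ^ 2 * b ^ 2 + v * b ^ 4 := by
  unfold hom
  simp only [sum_range_succ, sum_range_zero, coeff_add, coeff_X_pow, coeff_C_mul, coeff_C]
  norm_num
  ring

theorem hom_ff (B : ℕ) (a b : ℤ) : hom (ff B) 4 a b = FF B b a := by
  unfold ff FF
  rw [hom_gen]
  ring

theorem FF_pos (B r s : ℕ) (hs : 1 ≤ s) : 0 < FF B r s := by
  unfold FF
  have : (0 : ℤ) < s := by exact_mod_cast hs
  positivity

theorem FF_le (B r s m : ℕ) (hr : r ≤ m) (hs : s ≤ m) :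
    ((FF B r s : ℤ) : ℝ) ≤ (1 + 6 * B + (B : ℝ) ^ 2) * (m : ℝ) ^ 4 := by
  unfold FF
  push_cast
  have h1 : (r : ℝ) ≤ m := by exact_mod_cast hr
  have h2 : (s : ℝ) ≤ m := by exact_mod_cast hs
  have h3 : (s : ℝ) ^ 4 ≤ (m : ℝ) ^ 4 := by gcongr
  have h4 : (r : ℝ) ^ 4 ≤ (m : ℝ) ^ 4 := by gcongr
  have h5 : (r : ℝ) ^ 2 * (s : ℝ) ^ 2 ≤ (m : ℝ) ^ 2 * (m : ℝ) ^ 2 := by gcongr
  have hB : (0 : ℝ) ≤ B := Nat.cast_nonneg _
  nlinarith [mul_le_mul_of_nonneg_left h5 hB, mul_le_mul_of_nonneg_left h4 (sq_nonneg (B : ℝ))]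

/-- `∑ 1/n²` -/
theorem sum_inv (z : ℝ) (hz : 1 ≤ z) (N : ℕ) :
    ∑ n ∈ Icc ⌈z⌉₊ N, (1 : ℝ) / (n : ℝ) ^ 2 ≤ 2 / z := by
  have hc : 1 ≤ ⌈z⌉₊ := Nat.one_le_ceil_iff.2 (by linarith)
  have h1 := sum_Ioo_inv_sq_le (α := ℝ) (⌈z⌉₊ - 1) (N + 1)
  have h2 : Ioo (⌈z⌉₊ - 1) (N + 1) = Icc ⌈z⌉₊ N := by
    ext x
    simp only [mem_Ioo, mem_Icc]
    omega
  rw [h2] at h1
  have h3 : ((⌈z⌉₊ - 1 : ℕ) : ℝ) + 1 = (⌈z⌉₊ : ℝ) := by
    rw [Nat.cast_sub hc]; simp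
  rw [h3] at h1
  have h4 : (2 : ℝ) / (⌈z⌉₊ : ℝ) ≤ 2 / z := by
    have := Nat.le_ceil z
    gcongr
  have h5 : ∑ n ∈ Icc ⌈z⌉₊ N, (1 : ℝ) / (n : ℝ) ^ 2 = ∑ n ∈ Icc ⌈z⌉₊ N, ((n : ℝ) ^ 2)⁻¹ := by
    refine sum_congr rfl fun n _ => ?_
    rw [one_div]
  rw [h5]
  exact h1.trans h4

open Classical in
theorem cardA (Y : ℕ) (z : ℝ) (hz : 1 ≤ z) :
    (((Icc 1 Y ×ˢ Icc 1 Y).filter (fun i : ℕ × ℕ =>
      ∃ p : ℕ, z ≤ p ∧ p ∣ i.1 ∧ p ∣ i.2)).card : ℝ) ≤ 2 * (Y : ℝ) ^ 2 / z := by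
  have hsub : (Icc 1 Y ×ˢ Icc 1 Y).filter (fun i : ℕ × ℕ =>
      ∃ p : ℕ, z ≤ p ∧ p ∣ i.1 ∧ p ∣ i.2) ⊆ (Icc ⌈z⌉₊ Y).biUnion (fun p =>
        ((Ioc 0 Y).filter (fun x => p ∣ x)) ×ˢ ((Ioc 0 Y).filter (fun x => p ∣ x))) := by
    intro i hi
    rw [mem_filter, mem_product, mem_Icc, mem_Icc] at hi
    obtain ⟨⟨h1, h2⟩, p, hp, h3, h4⟩ := hi
    rw [mem_biUnion]
    refine ⟨p, mem_Icc.2 ⟨Nat.ceil_le.2 hp, (Nat.le_of_dvd (by omega) h3).trans h1.2⟩, ?_⟩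
    rw [mem_product, mem_filter, mem_filter, mem_Ioc, mem_Ioc]
    exact ⟨⟨⟨by omega, h1.2⟩, h3⟩, ⟨⟨by omega, h2.2⟩, h4⟩⟩
  have h1 := (card_le_card hsub).trans card_biUnion_le
  have h2 : ∀ p ∈ Icc ⌈z⌉₊ Y, (((((Ioc 0 Y).filter (fun x => p ∣ x)) ×ˢ
      ((Ioc 0 Y).filter (fun x => p ∣ x))).card : ℕ) : ℝ) ≤ (Y : ℝ) ^ 2 * (1 / (p : ℝ) ^ 2) := by
    intro p hp
    rw [card_product, Nat.Ioc_filter_dvd_card_eq_div]
    push_cast
    have h3 : ((Y / p : ℕ) : ℝ) ≤ (Y : ℝ) / p := Nat.cast_div_le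
    have h4 : (0 : ℝ) ≤ ((Y / p : ℕ) : ℝ) := Nat.cast_nonneg _
    calc ((Y / p : ℕ) : ℝ) * ((Y / p : ℕ) : ℝ) ≤ ((Y : ℝ) / p) * ((Y : ℝ) / p) := by gcongr
      _ = _ := by rw [div_mul_div_comm]; ring
  have h3 : (((Icc 1 Y ×ˢ Icc 1 Y).filter (fun i : ℕ × ℕ =>
      ∃ p : ℕ, z ≤ p ∧ p ∣ i.1 ∧ p ∣ i.2)).card : ℝ) ≤
      ∑ p ∈ Icc ⌈z⌉₊ Y, (((((Ioc 0 Y).filter (fun x => p ∣ x)) ×ˢ
      ((Ioc 0 Y).filter (fun x => p ∣ x))).card : ℕ) : ℝ) := by exact_mod_cast h1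
  refine h3.trans ((sum_le_sum h2).trans ?_)
  rw [← mul_sum]
  have h4 := sum_inv z hz Y
  calc (Y : ℝ) ^ 2 * ∑ p ∈ Icc ⌈z⌉₊ Y, (1 : ℝ) / (p : ℝ) ^ 2 ≤ (Y : ℝ) ^ 2 * (2 / z) := by gcongr
    _ = _ := by ring

/-- the factorisation of a square value -/
theorem sq_val (B r s l : ℕ) (hB : 1 ≤ B) (hr : 1 ≤ r) (h : FF B r s = (l : ℤ) ^ 2) :
    l < s ^ 2 + 3 * B * r ^ 2 ∧
      (s ^ 2 + 3 * B * r ^ 2 - l) * (s ^ 2 + 3 * B * r ^ 2 + l) = 8 * B ^ 2 * r ^ 4 := by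
  have h1 : (l : ℤ) ^ 2 + 8 * B ^ 2 * r ^ 4 = ((s : ℤ) ^ 2 + 3 * B * r ^ 2) ^ 2 := by
    rw [← h]; unfold FF; ring
  have h1' : l ^ 2 + 8 * B ^ 2 * r ^ 4 = (s ^ 2 + 3 * B * r ^ 2) ^ 2 := by exact_mod_cast h1
  have h2 : 0 < 8 * B ^ 2 * r ^ 4 := by positivity
  have h3 : l < s ^ 2 + 3 * B * r ^ 2 := by
    have : l ^ 2 < (s ^ 2 + 3 * B * r ^ 2) ^ 2 := by omega
    exact lt_of_pow_lt_pow_left₀ 2 (Nat.zero_le _) this
  refine ⟨h3, ?_⟩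
  obtain ⟨e, he⟩ := Nat.exists_eq_add_of_lt h3
  rw [he] at h1' ⊢
  have h4 : l + e + 1 - l = e + 1 := by omega
  rw [h4]
  nlinarith

open Classical in
theorem cardD (B Y : ℕ) (hB : 1 ≤ B) (Cd ε : ℝ) (hCd : 0 < Cd) (hε : 0 < ε)
    (hd : ∀ n : ℕ, 1 ≤ n → (n.divisors.card : ℝ) ≤ Cd * (n : ℝ) ^ ε) :
    (((Icc 1 Y ×ˢ Icc 1 Y).filter (fun i : ℕ × ℕ =>
      ∃ l : ℕ, FF B i.1 i.2 = (l : ℤ) ^ 2)).card : ℝ) ≤
      (Y : ℝ) * (Cd * (8 * (B : ℝ) ^ 2 * (Y : ℝ) ^ 4) ^ ε) := by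
  have hsub : (Icc 1 Y ×ˢ Icc 1 Y).filter (fun i : ℕ × ℕ =>
      ∃ l : ℕ, FF B i.1 i.2 = (l : ℤ) ^ 2) ⊆ (Icc 1 Y).biUnion (fun r =>
        ((Icc 1 Y).filter (fun s : ℕ => ∃ l : ℕ, FF B r s = (l : ℤ) ^ 2)).image (fun s : ℕ => (r, s))) := by
    intro i hi
    rw [mem_filter, mem_product] at hi
    rw [mem_biUnion]
    exact ⟨i.1, hi.1.1, mem_image.2 ⟨i.2, mem_filter.2 ⟨hi.1.2, hi.2⟩, rfl⟩⟩
  have h1 := (card_le_card hsub).trans card_biUnion_le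
  have h2 : ∀ r ∈ Icc 1 Y, (((((Icc 1 Y).filter (fun s : ℕ => ∃ l : ℕ, FF B r s = (l : ℤ) ^ 2)).image
      (fun s : ℕ => (r, s))).card : ℕ) : ℝ) ≤ Cd * (8 * (B : ℝ) ^ 2 * (Y : ℝ) ^ 4) ^ ε := by
    intro r hr
    rw [mem_Icc] at hr
    have hB' : 0 < B := hB
    have hr' : 0 < r := hr.1
    have h3 : (((Icc 1 Y).filter (fun s : ℕ => ∃ l : ℕ, FF B r s = (l : ℤ) ^ 2)).image
      (fun s : ℕ => (r, s))).card ≤ (8 * B ^ 2 * r ^ 4).divisors.card := by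
      refine card_image_le.trans ?_
      apply card_le_card_of_injOn
        (fun s : ℕ => s ^ 2 + 3 * B * r ^ 2 - Nat.sqrt (FF B r s).natAbs)
      · intro s hs
        rw [mem_coe, mem_filter] at hs
        obtain ⟨hs, l, hl⟩ := hs
        obtain ⟨h4, h5⟩ := sq_val B r s l hB hr.1 hl
        rw [mem_coe, Nat.mem_divisors]
        have h6 : Nat.sqrt (FF B r s).natAbs = l := by
          rw [hl, Int.natAbs_pow, Int.natAbs_natCast, Nat.sqrt_eq']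
        simp only [h6]
        exact ⟨⟨_, h5.symm⟩, by positivity⟩
      · intro s hs s' hs' hss
        rw [mem_coe, mem_filter] at hs hs'
        obtain ⟨hs, l, hl⟩ := hs
        obtain ⟨hs', l', hl'⟩ := hs'
        obtain ⟨h4, h5⟩ := sq_val B r s l hB hr.1 hl
        obtain ⟨h4', h5'⟩ := sq_val B r s' l' hB hr.1 hl'
        have h6 : Nat.sqrt (FF B r s).natAbs = l := by
          rw [hl, Int.natAbs_pow, Int.natAbs_natCast, Nat.sqrt_eq']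
        have h6' : Nat.sqrt (FF B r s').natAbs = l' := by
          rw [hl', Int.natAbs_pow, Int.natAbs_natCast, Nat.sqrt_eq']
        simp only [h6, h6'] at hss
        rw [← h5', ← hss] at h5
        have h7 : 0 < s ^ 2 + 3 * B * r ^ 2 - l := by omega
        have h8 := Nat.eq_of_mul_eq_mul_left h7 h5
        have h9 : s ^ 2 = s' ^ 2 := by omega
        exact Nat.pow_left_injective (by norm_num : 2 ≠ 0) h9
    have h4 := hd (8 * B ^ 2 * r ^ 4) (Nat.one_le_iff_ne_zero.2 (by positivity))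
    have h5 : ((8 * B ^ 2 * r ^ 4 : ℕ) : ℝ) ^ ε ≤ (8 * (B : ℝ) ^ 2 * (Y : ℝ) ^ 4) ^ ε := by
      apply Real.rpow_le_rpow (by positivity) _ hε.le
      push_cast
      have : (r : ℝ) ≤ Y := by exact_mod_cast hr.2
      gcongr
    calc (((((Icc 1 Y).filter (fun s : ℕ => ∃ l : ℕ, FF B r s = (l : ℤ) ^ 2)).image
        (fun s : ℕ => (r, s))).card : ℕ) : ℝ) ≤ ((8 * B ^ 2 * r ^ 4).divisors.card : ℝ) := by
          exact_mod_cast h3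
      _ ≤ _ := h4
      _ ≤ _ := by gcongr
  have h3 : (((Icc 1 Y ×ˢ Icc 1 Y).filter (fun i : ℕ × ℕ =>
      ∃ l : ℕ, FF B i.1 i.2 = (l : ℤ) ^ 2)).card : ℝ) ≤
      ∑ r ∈ Icc 1 Y, (((((Icc 1 Y).filter (fun s : ℕ => ∃ l : ℕ, FF B r s = (l : ℤ) ^ 2)).image
      (fun s : ℕ => (r, s))).card : ℕ) : ℝ) := by exact_mod_cast h1
  refine h3.trans ((sum_le_sum h2).trans ?_)
  rw [sum_const, Nat.card_Icc, nsmul_eq_mul]
  simp

open Classical in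
theorem cardB (B Y l : ℕ) (hB : 1 ≤ B) (hl : 1 ≤ l) (Cl ε : ℝ) (hCl : 0 < Cl)
    (hL : ∀ (Y ρ : ℝ) (N : ℕ), 1 ≤ Y → 0 ≤ ρ → 1 ≤ N → ∀ s : Finset (ℤ × ℤ),
    (∀ p ∈ s, Dy Y p ∧ (N : ℤ) ∣ hom (ff B) 4 p.1 p.2 ∧
      |((hom (ff B) 4 p.1 p.2 : ℤ) : ℝ)| ≤ ρ) →
    (s.card : ℝ) ≤ Cl * (N : ℝ) ^ ε * (ρ * Y ^ 2 / (Y ^ 4 * N) + 1)) :
    (((Icc 1 Y ×ˢ Icc 1 Y).filter (fun i : ℕ × ℕ =>
      Nat.Coprime i.1 i.2 ∧ (l : ℤ) ^ 2 ∣ FF B i.1 i.2)).card : ℝ) ≤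
      ((Nat.log 2 Y : ℝ) + 1) * (Cl * ((l : ℝ) ^ 2) ^ ε *
        ((1 + 6 * B + (B : ℝ) ^ 2) * (4 * (Y : ℝ) ^ 2) * (1 / (l : ℝ) ^ 2) + 1)) := by
  have hsub : (Icc 1 Y ×ˢ Icc 1 Y).filter (fun i : ℕ × ℕ =>
      Nat.Coprime i.1 i.2 ∧ (l : ℤ) ^ 2 ∣ FF B i.1 i.2) ⊆
      (range (Nat.log 2 Y + 1)).biUnion (fun j => (Icc 1 Y ×ˢ Icc 1 Y).filter (fun i : ℕ × ℕ =>
        (Nat.Coprime i.1 i.2 ∧ (l : ℤ) ^ 2 ∣ FF B i.1 i.2) ∧ Nat.log 2 (max i.1 i.2) = j)) := by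
    intro i hi
    rw [mem_filter] at hi
    rw [mem_biUnion]
    refine ⟨Nat.log 2 (max i.1 i.2), mem_range.2 ?_, mem_filter.2 ⟨hi.1, hi.2, rfl⟩⟩
    rw [mem_product, mem_Icc, mem_Icc] at hi
    have : Nat.log 2 (max i.1 i.2) ≤ Nat.log 2 Y :=
      Nat.log_mono_right (max_le hi.1.1.2 hi.1.2.2)
    omega
  have h1 := (card_le_card hsub).trans card_biUnion_le
  have h2 : ∀ j ∈ range (Nat.log 2 Y + 1), ((((Icc 1 Y ×ˢ Icc 1 Y).filter (fun i : ℕ × ℕ =>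
        (Nat.Coprime i.1 i.2 ∧ (l : ℤ) ^ 2 ∣ FF B i.1 i.2) ∧
          Nat.log 2 (max i.1 i.2) = j)).card : ℕ) : ℝ) ≤ Cl * ((l : ℝ) ^ 2) ^ ε *
        ((1 + 6 * B + (B : ℝ) ^ 2) * (4 * (Y : ℝ) ^ 2) * (1 / (l : ℝ) ^ 2) + 1) := by
    intro j hj
    rw [mem_range] at hj
    rcases Nat.eq_zero_or_pos Y with hY0 | hY0
    · subst hY0
      simp only [show Icc 1 0 = (∅ : Finset ℕ) from rfl, empty_product, filter_empty, card_empty]
      push_cast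
      positivity
    have hYj : (2 : ℝ) ^ j ≤ Y := by
      have : 2 ^ j ≤ Y := (Nat.pow_le_pow_right (by norm_num) (by omega)).trans
        (Nat.pow_log_le_self 2 (by omega))
      exact_mod_cast this
    set T := (Icc 1 Y ×ˢ Icc 1 Y).filter (fun i : ℕ × ℕ =>
        (Nat.Coprime i.1 i.2 ∧ (l : ℤ) ^ 2 ∣ FF B i.1 i.2) ∧ Nat.log 2 (max i.1 i.2) = j) with hT
    have hinj : Function.Injective (fun i : ℕ × ℕ => ((i.2 : ℤ), (i.1 : ℤ))) := by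
      rintro ⟨a, b⟩ ⟨c, d⟩ h
      simp only [Prod.mk.injEq, Nat.cast_inj] at h
      exact Prod.ext h.2 h.1
    have h3 := hL (2 * 2 ^ j) ((1 + 6 * B + (B : ℝ) ^ 2) * (2 * 2 ^ j) ^ 4) (l ^ 2)
      (by have : (1 : ℝ) ≤ 2 ^ j := one_le_pow₀ (by norm_num)
          linarith) (by positivity) (Nat.one_le_pow _ _ hl)
      (T.image (fun i : ℕ × ℕ => ((i.2 : ℤ), (i.1 : ℤ)))) (by
        intro p hp
        rw [mem_image] at hp
        obtain ⟨⟨r, s⟩, hi, rfl⟩ := hp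
        rw [hT, mem_filter, mem_product, mem_Icc, mem_Icc] at hi
        obtain ⟨⟨hr, hs⟩, ⟨hco, hdv⟩, hlog⟩ := hi
        simp only at hr hs hco hdv hlog ⊢
        have hm0 : max r s ≠ 0 := by omega
        have e1 := Nat.pow_log_le_self 2 hm0
        have e2 := Nat.lt_pow_succ_log_self (b := 2) (by norm_num) (max r s)
        rw [hlog] at e1 e2
        have e3 : ((max r s : ℕ) : ℝ) ≤ 2 * 2 ^ j := by
          have : max r s ≤ 2 * 2 ^ j := by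
            rw [Nat.succ_eq_add_one, pow_succ] at e2
            omega
          exact_mod_cast this
        have e4 : (2 : ℝ) ^ j ≤ ((max r s : ℕ) : ℝ) := by exact_mod_cast e1
        have er : (r : ℝ) ≤ ((max r s : ℕ) : ℝ) := by exact_mod_cast le_max_left r s
        have es : (s : ℝ) ≤ ((max r s : ℕ) : ℝ) := by exact_mod_cast le_max_right r s
        refine ⟨⟨?_, ?_, ?_, ?_⟩, ?_, ?_⟩
        · exact (Nat.isCoprime_iff_coprime.2 hco).symm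
        · push_cast
          rw [abs_of_nonneg (Nat.cast_nonneg _)]
          linarith
        · push_cast
          rw [abs_of_nonneg (Nat.cast_nonneg _)]
          linarith
        · push_cast
          rw [abs_of_nonneg (Nat.cast_nonneg _), abs_of_nonneg (Nat.cast_nonneg _), max_comm]
          push_cast at e4
          linarith
        · rw [hom_ff]
          push_cast
          exact hdv
        · rw [hom_ff]
          have h5 := FF_le B r s (max r s) (le_max_left _ _) (le_max_right _ _)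
          have h6 := FF_pos B r s hs.1
          have h7 : (0 : ℝ) < ((FF B r s : ℤ) : ℝ) := by exact_mod_cast h6
          rw [abs_of_pos h7]
          refine h5.trans ?_
          gcongr)
    rw [card_image_of_injective _ hinj] at h3
    refine h3.trans ?_
    have h8 : (1 + 6 * B + (B : ℝ) ^ 2) * (2 * 2 ^ j) ^ 4 * (2 * 2 ^ j) ^ 2 /
        ((2 * 2 ^ j) ^ 4 * ((l ^ 2 : ℕ) : ℝ)) = (1 + 6 * B + (B : ℝ) ^ 2) * (4 * (2 ^ j) ^ 2) *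
          (1 / (l : ℝ) ^ 2) := by
      have : (l : ℝ) ≠ 0 := by
        have : l ≠ 0 := by omega
        exact_mod_cast this
      push_cast
      field_simp
      ring
    rw [h8]
    push_cast
    gcongr
  have h3 : (((Icc 1 Y ×ˢ Icc 1 Y).filter (fun i : ℕ × ℕ =>
      Nat.Coprime i.1 i.2 ∧ (l : ℤ) ^ 2 ∣ FF B i.1 i.2)).card : ℝ) ≤
      ∑ j ∈ range (Nat.log 2 Y + 1), ((((Icc 1 Y ×ˢ Icc 1 Y).filter (fun i : ℕ × ℕ =>
        (Nat.Coprime i.1 i.2 ∧ (l : ℤ) ^ 2 ∣ FF B i.1 i.2) ∧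
          Nat.log 2 (max i.1 i.2) = j)).card : ℕ) : ℝ) := by exact_mod_cast h1
  refine h3.trans ((sum_le_sum h2).trans ?_)
  rw [sum_const, card_range, nsmul_eq_mul]
  push_cast
  exact le_refl _

theorem log_bound (Y : ℕ) (hY : 1 ≤ Y) (ε : ℝ) (hε : 0 < ε) :
    (Nat.log 2 Y : ℝ) + 1 ≤ (1 + 2 / ε) * (Y : ℝ) ^ ε := by
  have h1 : (Nat.log 2 Y : ℝ) ≤ Real.log Y / Real.log 2 := by
    have h2 : Real.log ((2 : ℝ) ^ (Nat.log 2 Y)) ≤ Real.log Y := by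
      apply Real.log_le_log (by positivity)
      exact_mod_cast Nat.pow_log_le_self 2 (by omega)
    rw [Real.log_pow] at h2
    rw [le_div_iff₀ (Real.log_pos (by norm_num))]
    exact h2
  have h2 : Real.log Y ≤ (Y : ℝ) ^ ε / ε := Real.log_le_rpow_div (Nat.cast_nonneg _) hε
  have h3 : (1 : ℝ) / 2 < Real.log 2 := by
    have := Real.log_two_gt_d9
    linarith
  have hY1 : (1 : ℝ) ≤ Y := by exact_mod_cast hY
  have h4 : 0 ≤ Real.log Y := Real.log_nonneg hY1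
  have h5 : Real.log Y / Real.log 2 ≤ 2 * Real.log Y := by
    rw [div_le_iff₀ (by linarith)]
    nlinarith
  have h6 : 1 ≤ (Y : ℝ) ^ ε := Real.one_le_rpow hY1 hε.le
  have h7 : (1 + 2 / ε) * (Y : ℝ) ^ ε = (Y : ℝ) ^ ε + 2 * ((Y : ℝ) ^ ε / ε) := by
    field_simp
  rw [h7]
  linarith

open Classical in
theorem t : S_NSQ := by
  intro B hB ε hε
  set η : ℝ := ε / 10 with hη
  have hη0 : 0 < η := by positivity
  obtain ⟨Cl, hCl, hL⟩ := hLAT (ff B) 4 (ff_sqf B hB) (by norm_num) η hη0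
  obtain ⟨Cd, hCd, hd⟩ := Pool.Agent.H510R2.divisor_bound η hη0
  set c : ℝ := 1 + 6 * B + (B : ℝ) ^ 2 with hc
  have hB0 : (1 : ℝ) ≤ B := by exact_mod_cast hB
  have hc1 : 1 ≤ c := by rw [hc]; nlinarith
  have hc0 : 0 < c := by linarith
  refine ⟨2 + Cl * c ^ (2 * η) * (1 + 2 / η) * (9 * c) + Cd * (8 * (B : ℝ) ^ 2) ^ η,
    by positivity, ?_⟩
  intro Y z hY hz hzY
  have hy : (1 : ℝ) ≤ Y := by exact_mod_cast hY
  have hy0 : (0 : ℝ) < Y := by linarith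
  have hz0 : 0 < z := by linarith
  set w : ℝ := z ^ (-(1 / 2 : ℝ)) with hw
  have hw0 : 0 < w := Real.rpow_pos_of_pos hz0 _
  have hw1 : w ≤ 1 := Real.rpow_le_one_of_one_le_of_nonpos hz (by norm_num)
  have hw2 : w ^ 2 = 1 / z := by
    rw [hw, ← Real.rpow_natCast, ← Real.rpow_mul hz0.le]
    norm_num
    rw [Real.rpow_neg_one]
  have hzw : 1 / z ≤ w := by
    rw [← hw2]
    nlinarith
  have hwY : (Y : ℝ) ^ (-(1 / 2 : ℝ)) ≤ w :=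
    Real.rpow_le_rpow_of_nonpos hz0 hzY (by norm_num)
  set P : ℝ := c * (Y : ℝ) ^ 2 * w with hP
  have hP0 : 0 ≤ P := by positivity
  set S := ((Icc 1 Y) ×ˢ (Icc 1 Y)).filter (fun i : ℕ × ℕ =>
      (∀ p : ℕ, p.Prime → (p : ℤ) ∣ FF B i.1 i.2 → z ≤ p) ∧ ¬ Squarefree (FF B i.1 i.2)) with hS
  set SA := (Icc 1 Y ×ˢ Icc 1 Y).filter (fun i : ℕ × ℕ =>
      ∃ p : ℕ, z ≤ p ∧ p ∣ i.1 ∧ p ∣ i.2) with hSA
  set SD := (Icc 1 Y ×ˢ Icc 1 Y).filter (fun i : ℕ × ℕ =>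
      ∃ l : ℕ, FF B i.1 i.2 = (l : ℤ) ^ 2) with hSD
  set SB := (Icc ⌈z⌉₊ ⌊P⌋₊).biUnion (fun l => (Icc 1 Y ×ˢ Icc 1 Y).filter (fun i : ℕ × ℕ =>
      Nat.Coprime i.1 i.2 ∧ (l : ℤ) ^ 2 ∣ FF B i.1 i.2)) with hSB
  have hsub : S ⊆ SA ∪ (SB ∪ SD) := by
    intro i hi
    rw [hS, mem_filter] at hi
    obtain ⟨hi0, hpr, hns⟩ := hi
    have hi1 := hi0
    rw [mem_product, mem_Icc, mem_Icc] at hi0
    obtain ⟨hr, hs⟩ := hi0
    have hF0 := FF_pos B i.1 i.2 hs.1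
    by_cases hco : Nat.Coprime i.1 i.2
    · apply mem_union_right
      rw [← Int.squarefree_natAbs, Nat.squarefree_iff_prime_squarefree] at hns
      push Not at hns
      obtain ⟨l, hl, hdv⟩ := hns
      have hdv2 : (l : ℤ) ^ 2 ∣ FF B i.1 i.2 := by
        rw [sq]
        have : ((l * l : ℕ) : ℤ) ∣ FF B i.1 i.2 := Int.natCast_dvd.2 hdv
        rwa [Nat.cast_mul] at this
      have hzl : z ≤ l := hpr l hl ((Dvd.intro_left _ (by ring)).trans hdv2 :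
        (l : ℤ) ∣ FF B i.1 i.2)
      by_cases hlP : (l : ℝ) ≤ P
      · apply mem_union_left
        rw [hSB, mem_biUnion]
        exact ⟨l, mem_Icc.2 ⟨Nat.ceil_le.2 hzl, Nat.le_floor hlP⟩, mem_filter.2 ⟨hi1, hco, hdv2⟩⟩
      · apply mem_union_right
        rw [hSD, mem_filter]
        refine ⟨hi1, l, ?_⟩
        push Not at hlP
        obtain ⟨k, hk⟩ := hdv2
        have hl0 : (0 : ℤ) < (l : ℤ) ^ 2 := by
          have : (0 : ℤ) < l := by exact_mod_cast hl.pos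
          positivity
        have hk0 : 0 < k := by
          by_contra h
          push Not at h
          have : (l : ℤ) ^ 2 * k ≤ 0 := mul_nonpos_of_nonneg_of_nonpos hl0.le h
          omega
        have hkz : (k : ℝ) < z := by
          have h5 := FF_le B i.1 i.2 Y hr.2 hs.2
          rw [← hc, hk] at h5
          push_cast at h5
          have h6 : P ^ 2 < (l : ℝ) ^ 2 := by
            have := pow_lt_pow_left₀ hlP hP0 (n := 2) (by norm_num)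
            exact this
          have h7 : P ^ 2 * z = c ^ 2 * (Y : ℝ) ^ 4 := by
            rw [hP, mul_pow, mul_pow, hw2]
            field_simp
          have hk1 : (0 : ℝ) < k := by exact_mod_cast hk0
          by_contra hcon
          push Not at hcon
          have h8 : c ^ 2 * (Y : ℝ) ^ 4 < (l : ℝ) ^ 2 * k := by
            rw [← h7]
            calc P ^ 2 * z < (l : ℝ) ^ 2 * z := by gcongr
              _ ≤ (l : ℝ) ^ 2 * k := by gcongr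
          have h9 : c * (Y : ℝ) ^ 4 ≤ c ^ 2 * (Y : ℝ) ^ 4 := by
            have : (0 : ℝ) ≤ (Y : ℝ) ^ 4 := by positivity
            have h10 : c ≤ c ^ 2 := by nlinarith
            exact mul_le_mul_of_nonneg_right h10 this
          linarith
        have hk1 : k = 1 := by
          by_contra hk1
          obtain ⟨q, hq, hqk⟩ := Nat.exists_prime_and_dvd (n := k.natAbs) (by omega)
          have h5 : (q : ℤ) ∣ k := Int.natCast_dvd.2 hqk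
          have h6 := hpr q hq (by rw [hk]; exact h5.mul_left _)
          have h7 : (q : ℤ) ≤ k := Int.le_of_dvd hk0 h5
          have h8 : (q : ℝ) ≤ k := by exact_mod_cast h7
          linarith
        rw [hk, hk1, mul_one]
    · apply mem_union_left
      rw [hSA, mem_filter]
      refine ⟨hi1, ?_⟩
      obtain ⟨p, hp, hp1, hp2⟩ := Nat.Prime.not_coprime_iff_dvd.1 hco
      refine ⟨p, hpr p hp ?_, hp1, hp2⟩
      have e1 : (p : ℤ) ∣ (i.1 : ℤ) := by exact_mod_cast hp1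
      have e2 : (p : ℤ) ∣ (i.2 : ℤ) := by exact_mod_cast hp2
      unfold FF
      refine dvd_add (dvd_add (dvd_pow e2 (by norm_num)) ?_) ?_
      · exact (dvd_pow e2 (by norm_num)).mul_left _
      · exact (dvd_pow e1 (by norm_num)).mul_left _
  have hcard : (S.card : ℝ) ≤ SA.card + (SB.card + SD.card) := by
    have := (card_le_card hsub).trans ((card_union_le _ _).trans
      (Nat.add_le_add_left (card_union_le _ _) _))
    exact_mod_cast this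
  have hA := cardA Y z hz
  have hD := cardD B Y hB Cd η hCd hη0 hd
  rw [← hSA] at hA
  rw [← hSD] at hD
  -- the middle range
  have hBd : (SB.card : ℝ) ≤ Cl * c ^ (2 * η) * (1 + 2 / η) * (9 * c) * ((Y : ℝ) ^ (2 + ε) * w) := by
    have h1 : (SB.card : ℝ) ≤ ∑ l ∈ Icc ⌈z⌉₊ ⌊P⌋₊, ((((Icc 1 Y ×ˢ Icc 1 Y).filter
        (fun i : ℕ × ℕ => Nat.Coprime i.1 i.2 ∧ (l : ℤ) ^ 2 ∣ FF B i.1 i.2)).card : ℕ) : ℝ) := by
      have := card_biUnion_le (s := Icc ⌈z⌉₊ ⌊P⌋₊) (t := fun l => (Icc 1 Y ×ˢ Icc 1 Y).filter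
        (fun i : ℕ × ℕ => Nat.Coprime i.1 i.2 ∧ (l : ℤ) ^ 2 ∣ FF B i.1 i.2))
      rw [← hSB] at this
      exact_mod_cast this
    have hcl1 : 1 ≤ ⌈z⌉₊ := Nat.one_le_ceil_iff.2 (by linarith)
    have hlog := log_bound Y hY η hη0
    have h2 : ∀ l ∈ Icc ⌈z⌉₊ ⌊P⌋₊, ((((Icc 1 Y ×ˢ Icc 1 Y).filter
        (fun i : ℕ × ℕ => Nat.Coprime i.1 i.2 ∧ (l : ℤ) ^ 2 ∣ FF B i.1 i.2)).card : ℕ) : ℝ) ≤
        (((1 + 2 / η) * (Y : ℝ) ^ η) * (Cl * (c ^ (2 * η) * (Y : ℝ) ^ (4 * η)))) *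
          (c * (4 * (Y : ℝ) ^ 2) * (1 / (l : ℝ) ^ 2) + 1) := by
      intro l hl
      rw [mem_Icc] at hl
      have h3 := cardB B Y l hB (by omega) Cl η hCl hL
      rw [← hc] at h3
      refine h3.trans ?_
      have h4 : ((l : ℝ) ^ 2) ^ η ≤ c ^ (2 * η) * (Y : ℝ) ^ (4 * η) := by
        have h5 : (l : ℝ) ≤ c * (Y : ℝ) ^ 2 := by
          have h6 : (l : ℝ) ≤ P := (Nat.cast_le.2 hl.2).trans (Nat.floor_le hP0)
          refine h6.trans ?_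
          rw [hP]
          have : 0 < c * (Y : ℝ) ^ 2 := by positivity
          nlinarith
        have h6 : ((l : ℝ) ^ 2) ^ η ≤ ((c * (Y : ℝ) ^ 2) ^ 2) ^ η := by
          apply Real.rpow_le_rpow (by positivity) _ hη0.le
          gcongr
        refine h6.trans (le_of_eq ?_)
        rw [← Real.rpow_natCast (c * (Y : ℝ) ^ 2) 2, ← Real.rpow_mul (by positivity),
          Real.mul_rpow hc0.le (by positivity), ← Real.rpow_natCast (Y : ℝ) 2,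
          ← Real.rpow_mul hy0.le]
        congr 2
        push_cast
        ring
      calc ((Nat.log 2 Y : ℝ) + 1) * (Cl * ((l : ℝ) ^ 2) ^ η *
            (c * (4 * (Y : ℝ) ^ 2) * (1 / (l : ℝ) ^ 2) + 1))
          ≤ ((1 + 2 / η) * (Y : ℝ) ^ η) * (Cl * (c ^ (2 * η) * (Y : ℝ) ^ (4 * η)) *
            (c * (4 * (Y : ℝ) ^ 2) * (1 / (l : ℝ) ^ 2) + 1)) := by gcongr
        _ = _ := by ring
    refine h1.trans ((sum_le_sum h2).trans ?_)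
    rw [← mul_sum, sum_add_distrib, ← mul_sum]
    have h5 := sum_inv z hz ⌊P⌋₊
    have h6 : ∑ l ∈ Icc ⌈z⌉₊ ⌊P⌋₊, (1 : ℝ) ≤ P := by
      rw [sum_const, nsmul_eq_mul, mul_one, Nat.card_Icc]
      have h7 : ((⌊P⌋₊ + 1 - ⌈z⌉₊ : ℕ) : ℝ) ≤ (⌊P⌋₊ : ℝ) := by
        exact_mod_cast (show ⌊P⌋₊ + 1 - ⌈z⌉₊ ≤ ⌊P⌋₊ by omega)
      exact h7.trans (Nat.floor_le hP0)
    have h7 : c * (4 * (Y : ℝ) ^ 2) * ∑ l ∈ Icc ⌈z⌉₊ ⌊P⌋₊, (1 : ℝ) / (l : ℝ) ^ 2 +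
        ∑ l ∈ Icc ⌈z⌉₊ ⌊P⌋₊, (1 : ℝ) ≤ 9 * c * ((Y : ℝ) ^ 2 * w) := by
      have h8 : c * (4 * (Y : ℝ) ^ 2) * ∑ l ∈ Icc ⌈z⌉₊ ⌊P⌋₊, (1 : ℝ) / (l : ℝ) ^ 2 ≤
          c * (4 * (Y : ℝ) ^ 2) * (2 * w) := by
        have : (2 : ℝ) / z ≤ 2 * w := by
          calc (2 : ℝ) / z = 2 * (1 / z) := by ring
            _ ≤ 2 * w := by linarith
        have := h5.trans this
        gcongr
      have h9 : P = c * ((Y : ℝ) ^ 2 * w) := by rw [hP]; ring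
      linarith
    have h8 : (Y : ℝ) ^ η * (Y : ℝ) ^ (4 * η) * (Y : ℝ) ^ 2 ≤ (Y : ℝ) ^ (2 + ε) := by
      rw [← Real.rpow_natCast (Y : ℝ) 2, ← Real.rpow_add hy0, ← Real.rpow_add hy0]
      apply Real.rpow_le_rpow_of_exponent_le hy
      rw [hη]
      push_cast
      linarith
    have hpos1 : 0 ≤ ((1 + 2 / η) * (Y : ℝ) ^ η) * (Cl * (c ^ (2 * η) * (Y : ℝ) ^ (4 * η))) := by
      positivity
    calc _ ≤ ((1 + 2 / η) * (Y : ℝ) ^ η) * (Cl * (c ^ (2 * η) * (Y : ℝ) ^ (4 * η))) *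
          (9 * c * ((Y : ℝ) ^ 2 * w)) := mul_le_mul_of_nonneg_left h7 hpos1
      _ = (Cl * c ^ (2 * η) * (1 + 2 / η) * (9 * c)) *
          (((Y : ℝ) ^ η * (Y : ℝ) ^ (4 * η) * (Y : ℝ) ^ 2) * w) := by ring
      _ ≤ _ := by gcongr
  -- the squares
  have hDd : (SD.card : ℝ) ≤ Cd * (8 * (B : ℝ) ^ 2) ^ η * ((Y : ℝ) ^ (2 + ε) * w) := by
    refine hD.trans ?_
    rw [Real.mul_rpow (by positivity) (by positivity)]
    have h1 : ((Y : ℝ) ^ 4) ^ η = (Y : ℝ) ^ (4 * η) := by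
      rw [← Real.rpow_natCast (Y : ℝ) 4, ← Real.rpow_mul hy0.le]
      norm_num
    rw [h1]
    have h2 : (Y : ℝ) * (Y : ℝ) ^ (4 * η) ≤ (Y : ℝ) ^ (2 + ε) * w := by
      have h3 : (Y : ℝ) * (Y : ℝ) ^ (4 * η) = (Y : ℝ) ^ (1 + 4 * η) := by
        rw [Real.rpow_add hy0, Real.rpow_one]
      have h4 : (Y : ℝ) ^ (1 + 4 * η) ≤ (Y : ℝ) ^ (2 + ε) * (Y : ℝ) ^ (-(1 / 2 : ℝ)) := by
        rw [← Real.rpow_add hy0]
        apply Real.rpow_le_rpow_of_exponent_le hy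
        rw [hη]
        linarith
      rw [h3]
      refine h4.trans ?_
      gcongr
    calc (Y : ℝ) * (Cd * ((8 * (B : ℝ) ^ 2) ^ η * (Y : ℝ) ^ (4 * η)))
        = Cd * (8 * (B : ℝ) ^ 2) ^ η * ((Y : ℝ) * (Y : ℝ) ^ (4 * η)) := by ring
      _ ≤ _ := by gcongr
  have hAd : (SA.card : ℝ) ≤ 2 * ((Y : ℝ) ^ (2 + ε) * w) := by
    refine hA.trans ?_
    have h1 : (Y : ℝ) ^ 2 ≤ (Y : ℝ) ^ (2 + ε) := by
      rw [← Real.rpow_natCast (Y : ℝ) 2]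
      apply Real.rpow_le_rpow_of_exponent_le hy
      push_cast
      linarith
    calc 2 * (Y : ℝ) ^ 2 / z = 2 * ((Y : ℝ) ^ 2 * (1 / z)) := by ring
      _ ≤ _ := by gcongr
  calc (S.card : ℝ) ≤ SA.card + (SB.card + SD.card) := hcard
    _ ≤ 2 * ((Y : ℝ) ^ (2 + ε) * w) +
        (Cl * c ^ (2 * η) * (1 + 2 / η) * (9 * c) * ((Y : ℝ) ^ (2 + ε) * w) +
          Cd * (8 * (B : ℝ) ^ 2) ^ η * ((Y : ℝ) ^ (2 + ε) * w)) := by linarith
    _ = _ := by ring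

end Pool.Agent.Y421.TC
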